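import Pool.Agent.U864.DL.Lang3

/-!
# The longest words of a language in the digits of almost all real algebraic numbers

Let `𝓛` be a language (a set of words) over the digits `0, …, b - 1` with the growth rate `θ`, where
`0 < θ < b`: it has `θ ^ (w + o(w))` words of length `w`. In a random sequence of digits the longest word of
`𝓛` which starts at one of `N` consecutive places has length `(1 + o(1)) log N / log (b / θ)` (for
instance the longest run of a digit, the longest stretch without a given word, the longest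
palindrome, the longest word with a proportion of ones at least `a > 1 / 2`). We show that this holds
for all `N ≥ N₀` at the same time, in all windows between the places `δ log H` and `A log H`, for
almost all real algebraic numbers `x` of degree `d ≥ 2`, ordered by their height `H`; and for `G(x)`,
where `G` is a polynomial with degree between `1` and `d - 1` and moderate coefficients. The number
`N₀` depends only on `d`, `b`, `δ`, `A`, the language and the proportion `ε` of the exceptions.

Proof. The exponential sums over the algebraic numbers (starting file `Y933/KG/AlgHat` of helper933)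
show that all tests with a bounded number of digits have small errors (starting file `N639/FG/FamA`).
New here (`Pool/Agent/U864/DL/Lang.lean`, `Lang2.lean`): the first moment of the number of words in `𝓛`
at all places and the second moment at separated places, for each length `w ≤ C log N` and each
`N = 2 ^ j`, with errors which can be summed over `w` and `j`, and the passage to all `N`.
-/

set_option autoImplicit false

namespace Pool.Agent.Results.MP_5b6025_nt.LongestWordsOfLanguages

open Finset Polynomial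
open Pool.Agent.U864.DL (block wordsOf GrowthRate PrefixClosed LongestWordLaw)

/-- the real algebraic numbers of degree `d` and height at most `H`: the real roots of the
irreducible integral polynomials of degree `d` with all coefficients at most `H` in absolute value -/
def AlgNumbers (d H : ℕ) : Set ℝ :=
  {x | ∃ P : ℤ[X], Irreducible P ∧ P.natDegree = d ∧ (∀ i, |P.coeff i| ≤ H) ∧ aeval x P = 0}

/-- **The longest words of a language** in the digits of almost all real algebraic numbers of
degree `d`. -/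
theorem result (d : ℕ) (hd : 2 ≤ d) (b : ℕ) (hb : 2 ≤ b) {δ A : ℝ} (hδ : 0 < δ) (hA : 0 < A) :
    ∃ κ : ℝ, 0 < κ ∧ ∀ (𝓛 : Set (List ℕ)) (θ : ℝ), 0 < θ → θ < b → GrowthRate b 𝓛 θ →
      ∀ C ε : ℝ, 0 < ε → ∃ w₀ N₀ H₀ : ℕ, ∀ H : ℕ, H₀ ≤ H →
      (AlgNumbers d H).Finite ∧ (AlgNumbers d H).Nonempty ∧
      ∀ G : ℝ[X], 1 ≤ G.natDegree → G.natDegree < d →
      (∀ i, 1 ≤ i → |G.coeff i| ≤ (H : ℝ) ^ κ) → (H : ℝ) ^ (-κ) ≤ |G.leadingCoeff| →
      ∀ s : ℕ, δ * Real.log H ≤ s →
      (({x ∈ AlgNumbers d H |
        ¬ LongestWordLaw b 𝓛 θ C ε w₀ N₀ s (A * Real.log H - s) (G.eval x)}.ncard : ℕ) : ℝ) ≤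
        ε * ((AlgNumbers d H).ncard : ℝ) := by
  classical
  obtain ⟨q, rfl⟩ : ∃ q, d = q + 2 := ⟨d - 2, by omega⟩
  obtain ⟨κ, hκ, ⟨H1, hH1⟩, S, hT, hS⟩ := Pool.Agent.N639.FG.alg_law q b hb hδ hA
  refine ⟨κ, hκ, fun 𝓛 θ hθ hθb hg C ε hε => ?_⟩
  obtain ⟨w0, N0, h0⟩ := Pool.Agent.U864.DL.longest_word hb hT 𝓛 hθ hθb hg C hε
  obtain ⟨H2, hH2⟩ := Filter.eventually_atTop.1 h0
  refine ⟨w0, max N0 1, max H1 H2, fun H hH => ?_⟩
  have hne := hH1 H (le_of_max_le_left hH)
  have f1 := hH2 H (le_of_max_le_right hH)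
  refine ⟨Pool.Agent.Y933.KG.Alg_finite q H, ?_, fun G h1 h2 h3 h4 s hs => ?_⟩
  · obtain ⟨x, hx⟩ := hne
    exact ⟨x, (Pool.Agent.N639.FG.mem_AS q H x).1 hx⟩
  have hP := hS H hne G h1 h2 h3 h4
  set n0 : ℕ := ⌈δ * Real.log H⌉₊ with hn0
  have hs0 : n0 ≤ s := Nat.ceil_le.2 hs
  have e5 := Pool.Agent.N639.FG.ncard_AS q H
  have e6 := Pool.Agent.N639.FG.ncard_bad q H
    (fun x => LongestWordLaw b 𝓛 θ C ε w0 (max N0 1) s (A * Real.log H - s) (G.eval x))
  change (({x ∈ Pool.Agent.Y933.KG.Alg (q + 2) H |
    ¬ LongestWordLaw b 𝓛 θ C ε w0 (max N0 1) s (A * Real.log H - s) (G.eval x)}.ncard : ℕ) : ℝ) ≤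
    ε * ((Pool.Agent.Y933.KG.Alg (q + 2) H).ncard : ℝ)
  rw [e5, e6]
  by_cases hsA : (s : ℝ) ≤ A * Real.log H
  · obtain ⟨U, hU, hU1, hU2⟩ := f1 _ hP (s - n0) (le_trans (by
      exact_mod_cast Nat.sub_le s n0) hsA)
    refine le_trans ?_ (Pool.Agent.N639.FG.cnt_of hU hU1
      (Q := fun x => LongestWordLaw b 𝓛 θ C ε w0 (max N0 1) s (A * Real.log H - s) (G.eval x)) ?_)
    · exact le_of_eq (by congr!)
    intro x _ hx N hN hNL
    have h7 : ∀ n w : ℕ, n0 ≤ n → block b (n - n0) w ((b : ℝ) ^ n0 * G.eval x) =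
        block b n w (G.eval x) := by
      intro n w hn
      rw [Pool.Agent.U864.DL.block_eq, Pool.Agent.U864.DL.block_eq]
      refine List.map_congr_left fun i _ => ?_
      rw [Pool.Agent.U864.DL.digit_eq, Pool.Agent.N639.FG.wd_shift,
        show n0 + (n - n0 + i) = n + i by omega, ← Pool.Agent.U864.DL.digit_eq]
    have hNL' : (N : ℝ) ≤ A * Real.log H := by
      have : (0 : ℝ) ≤ s := Nat.cast_nonneg s
      linarith
    obtain ⟨g1, g2⟩ := hU2 _ hx N ((le_max_left _ _).trans hN) hNL'
    refine ⟨fun w hw0 hw => ?_, fun w hw hor n k1 k2 k3 => ?_⟩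
    · obtain ⟨n, k1, k2, k3⟩ := g1 w hw0 hw
      refine ⟨n + n0, by omega, by omega, ?_⟩
      rw [← h7 _ _ (by omega), show n + n0 - n0 = n by omega]
      exact k3
    · refine g2 w hw hor (n - n0) (by omega) (by omega) ?_
      rw [h7 _ _ (by omega)]
      exact k3
  · have h8 : ∀ x, LongestWordLaw b 𝓛 θ C ε w0 (max N0 1) s (A * Real.log H - s) (G.eval x) := by
      intro x N hN hNL
      exfalso
      apply hsA
      have : (0 : ℝ) ≤ N := Nat.cast_nonneg N
      linarith
    rw [Finset.filter_false_of_mem fun x _ hx => hx (h8 x)]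
    simp only [card_empty, Nat.cast_zero]
    positivity

end Pool.Agent.Results.MP_5b6025_nt.LongestWordsOfLanguages
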