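import Pool.Agent.U457.PA.Main
import Pool.Agent.TH842.HS.Power
import Pool.Agent.TH842.A3.Final

/-!
# Probabilistic finite automata cannot predict the digits of algebraic numbers

A probabilistic predictor with `Q` states reads the base `b` digits of an irrational real algebraic
number `x`. Before it reads the next digit it draws, with a law which depends on its state only, a
prediction of this digit together with the state to which it goes, a function of the digit it
will read. Then it is wrong often, with overwhelming probability: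

* in every base at least `c (log N) ^ 3 / (log log N) ^ 5` times among the first `N` digits, except
  with probability at most `exp (- c (log N) ^ 3 / (log log N) ^ 5)`;
* in the bases which are not divisible by a suitable prime (for `√2`: in the odd bases) at least
  `c N ^ δ` times, except with probability at most `exp (- c N ^ δ)`.

The constants depend on `x`, `b` and `Q` only, not on the probabilities of the predictor.

Proof. If from some state all the predictions for a word of length `M` are right with probability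
more than `1/2`, then there is for each `t` a state from which all the predictions for the word
without its first `t` letters are right with probability more than `1/2`. Two of the first `Q + 1`
of these states are equal, and two events of probability more than `1/2` are compatible, so
the word has a period `≤ Q` from a place `≤ Q` on. So a word around a failure of
`d_k = d_(k+Q!)` costs an error with probability at least `1/2`, whatever happened before it; the mean
of `2^(-errors)` loses a factor `3/4` at each of many separated such words. The failures are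
counted in the starting results `AllAlgebraicExponentThree` and `DigitRelations`.
-/

set_option autoImplicit false

namespace Pool.Agent.Results.MP_5b6025_nt.RandomizedPredictors

open Finset Filter Pool.Agent.U457.PA NumberField IntermediateField
open scoped ENNReal

/-- `d 0, d 1, …` are the digits of the fractional part of `x` in base `b`: the digit `d i` is
`⌊b ^ (i+1) x⌋ mod b` -/
def IsDigits (b : ℕ) (x : ℝ) (d : ℕ → Fin b) : Prop :=
  ∀ i, ((d i : ℕ) : ℤ) = ⌊(b : ℝ) ^ (i + 1) * x⌋ % (b : ℤ)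

/-- the probability that less than `y` of the predictions for `d 0, …, d (N - 1)` are wrong, for the
predictor `R` with the initial state `q` -/
noncomputable def few {Q b : ℕ} (R : Predictor Q (Fin b)) (d : ℕ → Fin b) (q : Fin Q) (N : ℕ)
    (y : ℝ) : ℝ≥0∞ :=
  (run R d q N).toOuterMeasure {s | (s.2 : ℝ) < y}

lemma gen (b : ℕ) (x : ℝ) (Q : ℕ) (f : ℕ → ℝ) (hf : Tendsto f atTop atTop)
    (c : ℝ) (hc : 0 < c) (N1 : ℕ)
    (h : ∀ N : ℕ, N1 ≤ N → c * f N ≤ (((Icc 1 N).filter (fun k : ℕ =>
      ∑ j ∈ range (Nat.factorial Q + 1), (if j = 0 then (1 : ℤ) else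
        if j = Nat.factorial Q then -1 else 0) *
          Pool.Agent.W979.HS.digit b x (k + j) ≠ 0)).card : ℝ)) :
    ∃ c' : ℝ, 0 < c' ∧ c' ≤ c ∧ ∃ N0 : ℕ, ∀ d : ℕ → Fin b, IsDigits b x d →
      ∀ (R : Predictor Q (Fin b)) (q : Fin Q) (N : ℕ), N0 ≤ N →
        few R d q N (c' * f N) ≤ ENNReal.ofReal (Real.exp (-(c' * f N))) := by
  classical
  set P : ℕ := Nat.factorial Q with hP
  have hP1 : 1 ≤ P := Nat.factorial_pos Q
  have hM : (1 : ℝ) ≤ ((Q + P + 1 : ℕ) : ℝ) := by exact_mod_cast (by omega : 1 ≤ Q + P + 1)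
  obtain ⟨N2, hN2⟩ := eventually_atTop.1 (hf.eventually_ge_atTop (2 * ((Q + P : ℕ) : ℝ) / c))
  refine ⟨c / (18 * ((Q + P + 1 : ℕ) : ℝ)), by positivity, ?_, max N1 N2, fun d hd R q N hN => ?_⟩
  · refine div_le_self hc.le ?_
    linarith
  have h1 := h N ((le_max_left _ _).trans hN)
  have h2 := hN2 N ((le_max_right _ _).trans hN)
  rw [div_le_iff₀ hc] at h2
  refine errors_of_relation R d (Pool.Agent.W979.HS.digit b x) (fun i j hij => ?_) P
    (fun δ hδ hδQ => Nat.dvd_factorial hδ hδQ) q N _ ?_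
  · have h3 := hd i
    have h4 := hd j
    unfold Pool.Agent.W979.HS.digit
    rw [← h3, ← h4, hij]
  · have h5 : 9 * ((Q + P + 1 : ℕ) : ℝ) * (c / (18 * ((Q + P + 1 : ℕ) : ℝ)) * f N) =
        c * f N / 2 := by
      field_simp
      ring
    rw [h5]
    have h6 : (((Icc 1 N).filter (fun k : ℕ => ∑ j ∈ range (P + 1), (if j = 0 then (1 : ℤ) else
        if j = P then -1 else 0) * Pool.Agent.W979.HS.digit b x (k + j) ≠ 0)).card : ℝ) =
        ((#{k ∈ Icc 1 N | Pool.Agent.W979.HS.digit b x k ≠
          Pool.Agent.W979.HS.digit b x (k + P)} : ℕ) : ℝ) := by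
      congr 2
      refine Finset.filter_congr fun k _ => ?_
      rw [Pool.Agent.W979.HS.rel_sum P hP1, ne_eq, sub_eq_zero]
    rw [h6] at h1
    have h7 : c * f N / 2 + ((Q + P : ℕ) : ℝ) ≤ c * f N := by linarith
    refine (h7.trans h1).trans (le_of_eq ?_)
    congr 2
    ext k
    simp only [mem_filter]

lemma pow_case (x : ℝ) (b : ℕ) (hb : 2 ≤ b)
    (h : Pool.Agent.Results.MP_7e9a3a_nt.DigitRelations.RelationsFail x b) (Q : ℕ) :
    ∃ c δ : ℝ, 0 < c ∧ 0 < δ ∧ ∃ N0 : ℕ, ∀ d : ℕ → Fin b, IsDigits b x d →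
      ∀ (R : Predictor Q (Fin b)) (q : Fin Q) (N : ℕ), N0 ≤ N →
        few R d q N (c * (N : ℝ) ^ δ) ≤ ENNReal.ofReal (Real.exp (-(c * (N : ℝ) ^ δ))) := by
  obtain ⟨c, δ, hc, hδ, N1, h1⟩ := Pool.Agent.TH842.HS.rel_of_fail x b hb h (Nat.factorial Q)
    (Nat.factorial_pos Q)
  obtain ⟨c', hc', -, N0, h2⟩ := gen b x Q (fun N : ℕ => (N : ℝ) ^ δ)
    ((tendsto_rpow_atTop hδ).comp tendsto_natCast_atTop_atTop) c hc N1 h1
  exact ⟨c', δ, hc', hδ, N0, h2⟩

/-- Let `x` be an irrational real algebraic number.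
(1) For every base `b ≥ 2` and every `Q` there is `c > 0` such that every probabilistic predictor
with `Q` states is wrong at least `c (log N) ^ 3 / (log log N) ^ 5` times among the first `N` base
`b` digits of `x`, except with probability at most `exp (- c (log N) ^ 3 / (log log N) ^ 5)`, for
all large `N`.
(2) If `p` is a prime number such that `p ∈ P²` for every prime ideal `P ∋ p` of the ring of
integers of `ℚ(x)` (for `x = √2`: `p = 2`), then in every base which is not divisible by `p` the same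
holds with `c N ^ δ` for some `c, δ > 0`.
(3) If `ℚ(x)` has a subfield `L ≠ ℚ` which is Galois over `ℚ`, then there is a prime `p` such that in
every base which is not divisible by `p` the same holds with `c N ^ δ`. -/
theorem result (x : ℝ) (halg : IsAlgebraic ℚ x) (hirr : Irrational x) :
    (∀ b : ℕ, 2 ≤ b → ∀ Q : ℕ, ∃ c : ℝ, 0 < c ∧ ∃ N0 : ℕ, ∀ d : ℕ → Fin b, IsDigits b x d →
      ∀ (R : Predictor Q (Fin b)) (q : Fin Q) (N : ℕ), N0 ≤ N →
        few R d q N (c * ((Real.log N) ^ 3 / (Real.log (Real.log N)) ^ 5)) ≤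
          ENNReal.ofReal (Real.exp (-(c * ((Real.log N) ^ 3 / (Real.log (Real.log N)) ^ 5))))) ∧
    (∀ p : ℕ, p.Prime →
      (∀ P : Ideal (𝓞 ℚ⟮x⟯), P.IsPrime → (p : 𝓞 ℚ⟮x⟯) ∈ P → (p : 𝓞 ℚ⟮x⟯) ∈ P ^ 2) →
      ∀ b : ℕ, 2 ≤ b → ¬ p ∣ b → ∀ Q : ℕ, ∃ c δ : ℝ, 0 < c ∧ 0 < δ ∧ ∃ N0 : ℕ,
        ∀ d : ℕ → Fin b, IsDigits b x d → ∀ (R : Predictor Q (Fin b)) (q : Fin Q) (N : ℕ), N0 ≤ N →
          few R d q N (c * (N : ℝ) ^ δ) ≤ ENNReal.ofReal (Real.exp (-(c * (N : ℝ) ^ δ)))) ∧
    (∀ L : IntermediateField ℚ ℚ⟮x⟯, L ≠ ⊥ → IsGalois ℚ L → ∃ p : ℕ, p.Prime ∧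
      ∀ b : ℕ, 2 ≤ b → ¬ p ∣ b → ∀ Q : ℕ, ∃ c δ : ℝ, 0 < c ∧ 0 < δ ∧ ∃ N0 : ℕ,
        ∀ d : ℕ → Fin b, IsDigits b x d → ∀ (R : Predictor Q (Fin b)) (q : Fin Q) (N : ℕ), N0 ≤ N →
          few R d q N (c * (N : ℝ) ^ δ) ≤ ENNReal.ofReal (Real.exp (-(c * (N : ℝ) ^ δ)))) := by
  refine ⟨fun b hb Q => ?_, fun p hp h b hb hpb Q => ?_, fun L hL hgal => ?_⟩
  · have hirr' : ∀ z : Fin 1 → ℤ, z ≠ 0 →
        Irrational (∑ i, (z i : ℝ) * (fun _ : Fin 1 => x) i) := by
      intro z hz
      have h0 : z 0 ≠ 0 := by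
        intro h
        apply hz
        funext i
        rw [Subsingleton.elim i 0, h]
        rfl
      rw [Fin.sum_univ_one]
      exact hirr.intCast_mul h0
    obtain ⟨c, hc, N1, h⟩ := Pool.Agent.TH842.A3.Out5.relations5 Pool.Agent.TH842.A3.mg5
      (fun _ : Fin 1 => x) (fun _ => halg) hirr' b hb (Nat.factorial Q)
      (fun _ j => if j = 0 then (1 : ℤ) else if j = Nat.factorial Q then -1 else 0)
      ⟨0, 0, by omega, by simp⟩ 0
    obtain ⟨c', hc', -, N0, h2⟩ := gen b x Q
      (fun N : ℕ => (Real.log N) ^ 3 / (Real.log (Real.log N)) ^ 5)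
      (Pool.Agent.W979.HS.tend 3 5 (by norm_num)) c hc N1 (fun N hN => by
        rw [← mul_div_assoc]
        refine (h N hN).trans (le_of_eq ?_)
        congr 2
        apply Finset.filter_congr
        intro k _
        rw [Fin.sum_univ_one]
        rfl)
    exact ⟨c', hc', N0, h2⟩
  · exact pow_case x b hb
      ((Pool.Agent.Results.MP_7e9a3a_nt.DigitRelations.result x halg).1 p hp h b hb hpb) Q
  · obtain ⟨p, hp, h⟩ := (Pool.Agent.Results.MP_7e9a3a_nt.DigitRelations.result x halg).2 L hL hgal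
    exact ⟨p, hp, fun b hb hpb Q => pow_case x b hb (h b hb hpb) Q⟩

end Pool.Agent.Results.MP_5b6025_nt.RandomizedPredictors
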