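import Pool.Agent.U864.DL.Basic

/-!
# The longest repeated word in the digits of almost all real algebraic numbers

Let `b ≥ 2`. Among the words which start at `N` consecutive places of a random sequence of base `b`
digits the longest word which occurs twice has length `(2 + o(1)) log_b N`. We show that this holds for
all `N ≥ N₀` at the same time, in all windows between the places `δ log H` and `A log H`, for almost all
real algebraic numbers `x` of degree `d ≥ 2`, ordered by their height `H`; and for `G(x)`, where `G` is a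
polynomial with degree between `1` and `d - 1` and moderate coefficients. The number `N₀` depends only
on `d`, `b`, `δ`, `A` and the proportion `ε` of the exceptions.

Proof. The exponential sums over the algebraic numbers (starting file `Y933/KG/AlgHat` of helper933)
show that all tests with a bounded number of digits have small errors. The upper bound is the first
moment of the number of the repetitions, the lower bound the second moment (starting files
`N639/FG/C2`, `N639/FG/Grid` of helper639, following helper407); it is enough to look at `N = 2 ^ j` and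
at the last `N`, because everything is monotone in `N`.
-/

set_option autoImplicit false

namespace Pool.Agent.Results.MP_5b6025_nt.RepeatedWords

open Finset Polynomial

/-- the real algebraic numbers of degree `d` and height at most `H`: the real roots of the
irreducible integral polynomials of degree `d` with all coefficients at most `H` in absolute value -/
def AlgNumbers (d H : ℕ) : Set ℝ :=
  {x | ∃ P : ℤ[X], Irreducible P ∧ P.natDegree = d ∧ (∀ i, |P.coeff i| ≤ H) ∧ aeval x P = 0}

/-- the digit in base `b` of `y` which follows the first `n` digits after the point -/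
noncomputable def digit (b n : ℕ) (y : ℝ) : ℕ := ⌊(b : ℝ) * Int.fract ((b : ℝ) ^ n * y)⌋₊

/-- the same word of `w` digits follows the first `i` digits and the first `j` digits after the point,
for some places `s ≤ i < j < s + N` -/
def Repeated (b w s N : ℕ) (y : ℝ) : Prop :=
  ∃ i j : ℕ, s ≤ i ∧ i < j ∧ j < s + N ∧ ∀ k < w, digit b (i + k) y = digit b (j + k) y

/-- for all `N ≥ N₀` with `s + N ≤ L`: among the words which start at the places `s, …, s + N - 1` there
are two equal words of every length `w ≤ (2 - ε) log_b N`, and there are no two equal words which are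
longer than `(2 + ε) log_b N` -/
def RepLaw (b s N₀ : ℕ) (L ε : ℝ) (y : ℝ) : Prop :=
  ∀ N : ℕ, N₀ ≤ N → ((s + N : ℕ) : ℝ) ≤ L →
    (∀ w : ℕ, (w : ℝ) ≤ (2 - ε) * Real.logb b N → Repeated b w s N y) ∧
    (∀ w : ℕ, Repeated b w s N y → (w : ℝ) ≤ (2 + ε) * Real.logb b N)

/-- **The longest repeated word** in the digits of almost all real algebraic numbers of degree `d`. -/
theorem result (d : ℕ) (hd : 2 ≤ d) (b : ℕ) (hb : 2 ≤ b) {δ A : ℝ} (hδ : 0 < δ) (hA : 0 < A) :
    ∃ κ : ℝ, 0 < κ ∧ ∀ ε : ℝ, 0 < ε → ∃ N₀ H₀ : ℕ, ∀ H : ℕ, H₀ ≤ H →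
      (AlgNumbers d H).Finite ∧ (AlgNumbers d H).Nonempty ∧
      ∀ G : ℝ[X], 1 ≤ G.natDegree → G.natDegree < d →
      (∀ i, 1 ≤ i → |G.coeff i| ≤ (H : ℝ) ^ κ) → (H : ℝ) ^ (-κ) ≤ |G.leadingCoeff| →
      ∀ s : ℕ, δ * Real.log H ≤ s →
      (({x ∈ AlgNumbers d H | ¬ RepLaw b s N₀ (A * Real.log H) ε (G.eval x)}.ncard : ℕ) : ℝ) ≤
        ε * ((AlgNumbers d H).ncard : ℝ) := by
  classical
  obtain ⟨q, rfl⟩ : ∃ q, d = q + 2 := ⟨d - 2, by omega⟩
  obtain ⟨κ, hκ, ⟨H1, hH1⟩, S, hT, hS⟩ := Pool.Agent.N639.FG.alg_law q b hb hδ hA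
  refine ⟨κ, hκ, fun ε hε => ?_⟩
  obtain ⟨N0, h0⟩ := Pool.Agent.U864.DL.rep_law hb hT hε
  obtain ⟨H2, hH2⟩ := Filter.eventually_atTop.1 h0
  refine ⟨N0, max H1 H2, fun H hH => ?_⟩
  have hne := hH1 H (le_of_max_le_left hH)
  have f1 := hH2 H (le_of_max_le_right hH)
  refine ⟨Pool.Agent.Y933.KG.Alg_finite q H, ?_, fun G h1 h2 h3 h4 s hs => ?_⟩
  · obtain ⟨x, hx⟩ := hne
    exact ⟨x, (Pool.Agent.N639.FG.mem_AS q H x).1 hx⟩
  have hP := hS H hne G h1 h2 h3 h4
  set n0 : ℕ := ⌈δ * Real.log H⌉₊ with hn0
  have hs0 : n0 ≤ s := Nat.ceil_le.2 hs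
  have e5 := Pool.Agent.N639.FG.ncard_AS q H
  have e6 := Pool.Agent.N639.FG.ncard_bad q H
    (fun x => RepLaw b s N0 (A * Real.log H) ε (G.eval x))
  change (({x ∈ Pool.Agent.Y933.KG.Alg (q + 2) H |
    ¬ RepLaw b s N0 (A * Real.log H) ε (G.eval x)}.ncard : ℕ) : ℝ) ≤
    ε * ((Pool.Agent.Y933.KG.Alg (q + 2) H).ncard : ℝ)
  rw [e5, e6]
  by_cases hsA : (s : ℝ) ≤ A * Real.log H
  · obtain ⟨U, hU, hU1, hU2⟩ := f1 _ hP (s - n0) (le_trans (by
      exact_mod_cast Nat.sub_le s n0) hsA)
    refine le_trans ?_ (Pool.Agent.N639.FG.cnt_of hU hU1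
      (Q := fun x => RepLaw b s N0 (A * Real.log H) ε (G.eval x)) ?_)
    · exact le_of_eq (by congr!)
    intro x _ hx N hN hNL
    have h7 : ∀ n : ℕ, n0 ≤ n → Pool.Agent.U864.DL.digit b (n - n0) ((b : ℝ) ^ n0 * G.eval x) =
        digit b n (G.eval x) := by
      intro n hn
      rw [Pool.Agent.U864.DL.digit_eq, Pool.Agent.N639.FG.wd_shift,
        show n0 + (n - n0) = n by omega, ← Pool.Agent.U864.DL.digit_eq]
      rfl
    have hNL' : (N : ℝ) ≤ A * Real.log H := by
      refine le_trans ?_ hNL
      push_cast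
      have : (0 : ℝ) ≤ s := Nat.cast_nonneg s
      linarith
    obtain ⟨g1, g2⟩ := hU2 _ hx N hN hNL'
    refine ⟨fun w hw => ?_, fun w hw => ?_⟩
    · obtain ⟨i, j, k1, k2, k3, k4⟩ := g1 w hw
      refine ⟨i + n0, j + n0, by omega, by omega, by omega, fun k hk => ?_⟩
      have := k4 k hk
      rw [← h7 _ (by omega), ← h7 _ (by omega), show i + n0 + k - n0 = i + k by omega,
        show j + n0 + k - n0 = j + k by omega]
      exact this
    · obtain ⟨i, j, k1, k2, k3, k4⟩ := hw
      refine g2 w ⟨i - n0, j - n0, by omega, by omega, by omega, fun k hk => ?_⟩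
      rw [show i - n0 + k = (i + k) - n0 by omega, show j - n0 + k = (j + k) - n0 by omega,
        h7 _ (by omega), h7 _ (by omega)]
      exact k4 k hk
  · have h8 : ∀ x, RepLaw b s N0 (A * Real.log H) ε (G.eval x) := by
      intro x N hN hNL
      exfalso
      apply hsA
      refine le_trans ?_ hNL
      push_cast
      have : (0 : ℝ) ≤ N := Nat.cast_nonneg N
      linarith
    rw [Finset.filter_false_of_mem fun x _ hx => hx (h8 x)]
    simp only [card_empty, Nat.cast_zero]
    positivity

end Pool.Agent.Results.MP_5b6025_nt.RepeatedWords
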