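import Pool.Agent.U864.DL.Basic

/-!
# The longest repeated word in the digits of nearly all roots `m ^ (1 / d)`, beyond `log m` digits

Among the words which start at `N` consecutive places of a random sequence of base `b` digits the
longest one which occurs twice has length `(2 + o(1)) log_b N`. Let `d ≥ 2`. We prove this law for the
real algebraic numbers `y = f(m ^ (1 / d)) / c`, where `M < m ≤ 2 M` and `f` is an integral polynomial
with `1 ≤ deg f < d` (for instance `y = m ^ (1 / d)`; for `d = 2` this is `√m`), and `c ≥ 1` and the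
coefficients of `f` are at most `exp ((log M) ^ (4 / 5))`. There is `δ > 0`, which depends on `d` only, such
that it holds for all windows inside of the first `(log M) ^ (1 + δ)` digits after the point, which is
more than any multiple of the number of digits of `m`, at the same time for all lengths `N ≥ N₀` of the
window, outside of a proportion `ε` of the `m`; `N₀` depends only on `b`, `d` and `ε`.

The numbers `y` are in the thin family of the pure radical fields; statements on almost all algebraic
numbers of degree `d` and height at most `H` say nothing on them.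

Proof. Exponential sums over `m` by the methods of van der Corput and Vinogradov (starting files
`N586/RT` of helper586), the joint distribution of boundedly many words, first and second moment
(starting files `N639/FG/FamR`, `N639/FG/C2`, `N639/FG/Grid` of helper639).
-/

set_option autoImplicit false

namespace Pool.Agent.Results.MP_5b6025_nt.RepeatedWordsOfRoots

open Finset Real Polynomial

/-- the digit in base `b` of `x` which follows the first `n` digits after the point -/
noncomputable def digit (b n : ℕ) (x : ℝ) : ℕ := ⌊(b : ℝ) * Int.fract ((b : ℝ) ^ n * x)⌋₊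

/-- the same word of `w` digits follows the first `i` digits and the first `j` digits after the point,
for some places `s ≤ i < j < s + N` -/
def Repeated (b w s N : ℕ) (x : ℝ) : Prop :=
  ∃ i j : ℕ, s ≤ i ∧ i < j ∧ j < s + N ∧ ∀ k < w, digit b (i + k) x = digit b (j + k) x

/-- for all `N` with `N₀ ≤ N ≤ L`: among the words which start at the places `s, …, s + N - 1` there
are two equal words of every length `w ≤ (2 - ε) log_b N`, and there are no two equal words which are
longer than `(2 + ε) log_b N` -/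
def RepLaw (b s N₀ : ℕ) (L ε : ℝ) (x : ℝ) : Prop :=
  ∀ N : ℕ, N₀ ≤ N → (N : ℝ) ≤ L →
    (∀ w : ℕ, (w : ℝ) ≤ (2 - ε) * logb b N → Repeated b w s N x) ∧
    (∀ w : ℕ, Repeated b w s N x → (w : ℝ) ≤ (2 + ε) * logb b N)

/-- `1 ≤ deg f < d`, and `c ≥ 1` and the absolute values of the coefficients of the integral
polynomial `f` are at most `exp ((log M) ^ (4 / 5))` -/
def Small (d M : ℕ) (f : ℤ[X]) (c : ℕ) : Prop :=
  1 ≤ f.natDegree ∧ f.natDegree < d ∧
    (∀ i, |(f.coeff i : ℝ)| ≤ Real.exp ((Real.log M) ^ (4 / 5 : ℝ))) ∧ 1 ≤ c ∧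
    (c : ℝ) ≤ Real.exp ((Real.log M) ^ (4 / 5 : ℝ))

open Classical in
/-- **The longest repeated word** in the digits of nearly all numbers `f(m ^ (1 / d)) / c`. -/
theorem result (d : ℕ) (hd : 2 ≤ d) : ∃ δ : ℝ, 0 < δ ∧ ∀ (b : ℕ) (ε : ℝ), 2 ≤ b → 0 < ε →
    ∃ N₀ M₀ : ℕ, ∀ M : ℕ, M₀ ≤ M → ∀ (f : ℤ[X]) (c : ℕ), Small d M f c → ∀ s : ℕ,
      (s : ℝ) ≤ (log M) ^ (1 + δ) →
      (((Ioc M (2 * M)).filter fun m : ℕ =>
        ¬ RepLaw b s N₀ ((log M) ^ (1 + δ)) ε (aeval ((m : ℝ) ^ (1 / (d : ℝ))) f / c)).card : ℝ) ≤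
          ε * M := by
  obtain ⟨δ, hδ, hT⟩ := Pool.Agent.N639.FG.tg_SD d hd
  refine ⟨δ, hδ, fun b ε hb hε => ?_⟩
  obtain ⟨N₀, h0⟩ := Pool.Agent.U864.DL.rep_law hb (hT b hb) hε
  obtain ⟨M₀, hM₀⟩ := Filter.eventually_atTop.1 h0
  refine ⟨N₀, M₀, fun M hM f c hf s hs => ?_⟩
  obtain ⟨V, hV1, hV2, hV3⟩ := hM₀ M hM _
    ⟨f, c, hf.1, hf.2.1, hf.2.2.1, hf.2.2.2.1, hf.2.2.2.2, rfl⟩ s hs
  have key := Pool.Agent.N639.FG.cnt_of hV1 hV2
    (Q := fun m : ℕ => RepLaw b s N₀ ((log M) ^ (1 + δ)) ε
      (aeval ((m : ℝ) ^ (1 / (d : ℝ))) f / c))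
    (fun m _ hm => hV3 _ hm)
  rw [Nat.card_Ioc, show 2 * M - M = M by omega] at key
  exact key

end Pool.Agent.Results.MP_5b6025_nt.RepeatedWordsOfRoots
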